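import Mathlib

set_option autoImplicit false

/-!
# Local dimension of the Boolean lattice

The Boolean lattice of all subsets of an `n`-element set has a local realizer in which every
element occurs at most `n - ⌊n / 4⌋` times.
-/

namespace Pool.Agent.Results.MP_666a49_co.QuarterSaving

open List

/-- A partial linear extension of the poset `P`, written as the list of its members in increasing
order: the members are distinct, and no member `x` stands before a member `y` with `y ≤ x`. -/
def IsPLE {P : Type*} [PartialOrder P] (L : List P) : Prop :=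
  L.Pairwise (fun x y => ¬ y ≤ x)

/-- `F` is a local realizer of `P`: a finite family of partial linear extensions such that each
pair `x < y` stands in this order in some member of `F`, and each incomparable pair stands in each
of its two orders in some member of `F`. -/
structure IsLocalRealizer {P : Type*} [PartialOrder P] (F : List (List P)) : Prop where
  ple : ∀ L ∈ F, IsPLE L
  comparable : ∀ x y : P, x < y → ∃ L ∈ F, [x, y] <+ L
  incomparable : ∀ x y : P, ¬ x ≤ y → ¬ y ≤ x → ∃ L ∈ F, [x, y] <+ L

/-- The local dimension of `P` is at most `k`: some local realizer of `P` has each element of `P` in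
at most `k` of its members. -/
def LocalDimLE (P : Type*) [PartialOrder P] [DecidableEq P] (k : ℕ) : Prop :=
  ∃ F : List (List P), IsLocalRealizer F ∧ ∀ x : P, F.countP (fun L => decide (x ∈ L)) ≤ k

section general

variable {α β : Type*} [PartialOrder α] [PartialOrder β] [DecidableEq α] [DecidableEq β]

lemma IsLocalRealizer.get {F : List (List α)} (h : IsLocalRealizer F) {x y : α} (hxy : ¬ y ≤ x) :
    ∃ L ∈ F, [x, y] <+ L := by
  by_cases h1 : x ≤ y
  · exact h.comparable x y (lt_of_le_not_ge h1 hxy)
  · exact h.incomparable x y h1 hxy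

lemma isLocalRealizer_of {F : List (List α)} (h1 : ∀ L ∈ F, IsPLE L)
    (h2 : ∀ x y : α, ¬ y ≤ x → ∃ L ∈ F, [x, y] <+ L) : IsLocalRealizer F :=
  ⟨h1, fun x y h => h2 x y h.not_ge, fun x y _ h => h2 x y h⟩

/-- A finite poset has a linear extension. -/
lemma exists_linear_extension (α : Type*) [PartialOrder α] [Finite α] :
    ∃ E : List α, (∀ x, x ∈ E) ∧ E.Pairwise (fun x y => ¬ y ≤ x) := by
  classical
  have : Fintype α := Fintype.ofFinite α
  let s : List (LinearExtension α) :=
    ((Finset.univ : Finset α).image (fun x => (toLinearExtension x : LinearExtension α))).sort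
  have hs : ∀ x : α, (toLinearExtension x : LinearExtension α) ∈ s := by
    intro x
    exact (Finset.mem_sort _).2 (Finset.mem_image_of_mem _ (Finset.mem_univ x))
  have h : s.Pairwise (fun x y => x < y) :=
    (((Finset.univ : Finset α).image
      (fun x => (toLinearExtension x : LinearExtension α))).sortedLT_sort).pairwise
  let g : LinearExtension α → α := fun x => x
  refine ⟨s.map g, fun x => List.mem_map.2 ⟨_, hs x, rfl⟩, ?_⟩
  rw [List.pairwise_map]
  refine h.imp ?_
  intro x y hxy hyx
  have h1 : (toLinearExtension (g y) : LinearExtension α) ≤ toLinearExtension (g x) :=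
    toLinearExtension.monotone hyx
  have h2 : (toLinearExtension (g x) : LinearExtension α) < toLinearExtension (g y) := hxy
  exact absurd h2 (not_lt.2 h1)

lemma two_sublist_flatMap {γ : Type*} (f : α → List γ) {x x' : α} {L : List α} (h : [x, x'] <+ L)
    {u v : γ} (hu : u ∈ f x) (hv : v ∈ f x') : [u, v] <+ L.flatMap f := by
  refine Sublist.trans ?_ (h.flatMap f)
  simp only [List.flatMap_cons, List.flatMap_nil, List.append_nil]
  exact (List.singleton_sublist.2 hu).append (List.singleton_sublist.2 hv)

theorem localDimLE_prod [Finite α] [Finite β] {a b : ℕ} (ha : LocalDimLE α a)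
    (hb : LocalDimLE β b) : LocalDimLE (α × β) (a + b) := by
  obtain ⟨F, hF, hFc⟩ := ha
  obtain ⟨G, hG, hGc⟩ := hb
  obtain ⟨EA, hEA, hEA'⟩ := exists_linear_extension α
  obtain ⟨EB, hEB, hEB'⟩ := exists_linear_extension β
  let p : List α → List (α × β) := fun L => L.flatMap (fun x => EB.map (fun y => (x, y)))
  let q : List β → List (α × β) := fun L => L.flatMap (fun y => EA.map (fun x => (x, y)))
  have mp : ∀ L (z : α × β), z ∈ p L ↔ z.1 ∈ L := by
    rintro L ⟨x, y⟩
    simp only [p, List.mem_flatMap, List.mem_map, Prod.mk.injEq]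
    constructor
    · rintro ⟨x', h, y', -, h2, -⟩
      exact h2 ▸ h
    · intro h
      exact ⟨x, h, y, hEB y, rfl, rfl⟩
  have mq : ∀ L (z : α × β), z ∈ q L ↔ z.2 ∈ L := by
    rintro L ⟨x, y⟩
    simp only [q, List.mem_flatMap, List.mem_map, Prod.mk.injEq]
    constructor
    · rintro ⟨y', h, x', -, -, h2⟩
      exact h2 ▸ h
    · intro h
      exact ⟨y, h, x, hEA x, rfl, rfl⟩
  refine ⟨F.map p ++ G.map q, isLocalRealizer_of ?_ ?_, ?_⟩
  · intro L hL
    rw [List.mem_append, List.mem_map, List.mem_map] at hL
    rcases hL with ⟨M, hM, rfl⟩ | ⟨M, hM, rfl⟩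
    · simp only [p, IsPLE, List.pairwise_flatMap]
      refine ⟨fun x _ => ?_, ?_⟩
      · rw [List.pairwise_map]
        refine hEB'.imp ?_
        intro y y' h h'
        exact h h'.2
      · refine (hF.ple M hM).imp ?_
        intro x x' h u hu v hv hvu
        rw [List.mem_map] at hu hv
        obtain ⟨_, _, rfl⟩ := hu
        obtain ⟨_, _, rfl⟩ := hv
        exact h hvu.1
    · simp only [q, IsPLE, List.pairwise_flatMap]
      refine ⟨fun x _ => ?_, ?_⟩
      · rw [List.pairwise_map]
        refine hEA'.imp ?_
        intro y y' h h'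
        exact h h'.1
      · refine (hG.ple M hM).imp ?_
        intro x x' h u hu v hv hvu
        rw [List.mem_map] at hu hv
        obtain ⟨_, _, rfl⟩ := hu
        obtain ⟨_, _, rfl⟩ := hv
        exact h hvu.2
  · rintro ⟨x, y⟩ ⟨x', y'⟩ h
    by_cases h1 : x' ≤ x
    · have h2 : ¬ y' ≤ y := fun h2 => h ⟨h1, h2⟩
      obtain ⟨L, hL, hs⟩ := hG.get h2
      refine ⟨q L, List.mem_append_right _ (List.mem_map_of_mem hL), ?_⟩
      exact two_sublist_flatMap _ hs (List.mem_map.2 ⟨x, hEA x, rfl⟩)
        (List.mem_map.2 ⟨x', hEA x', rfl⟩)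
    · obtain ⟨L, hL, hs⟩ := hF.get h1
      refine ⟨p L, List.mem_append_left _ (List.mem_map_of_mem hL), ?_⟩
      exact two_sublist_flatMap _ hs (List.mem_map.2 ⟨y, hEB y, rfl⟩)
        (List.mem_map.2 ⟨y', hEB y', rfl⟩)
  · intro z
    rw [List.countP_append, List.countP_map, List.countP_map]
    refine Nat.add_le_add (le_trans (le_of_eq ?_) (hFc z.1)) (le_trans (le_of_eq ?_) (hGc z.2))
    · apply List.countP_congr
      intro L _
      simp only [Function.comp, decide_eq_true_eq]
      exact mp L z
    · apply List.countP_congr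
      intro L _
      simp only [Function.comp, decide_eq_true_eq]
      exact mq L z

theorem LocalDimLE.congr {a : ℕ} (h : LocalDimLE α a) (e : α ≃o β) : LocalDimLE β a := by
  obtain ⟨F, hF, hFc⟩ := h
  refine ⟨F.map (List.map e), isLocalRealizer_of ?_ ?_, ?_⟩
  · intro L hL
    rw [List.mem_map] at hL
    obtain ⟨M, hM, rfl⟩ := hL
    rw [IsPLE, List.pairwise_map]
    refine (hF.ple M hM).imp ?_
    intro x y h h'
    exact h (e.le_iff_le.1 h')
  · intro x y hxy
    have : ¬ e.symm y ≤ e.symm x := fun h => hxy (e.symm.le_iff_le.1 h)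
    obtain ⟨L, hL, hs⟩ := hF.get this
    refine ⟨L.map e, List.mem_map_of_mem hL, ?_⟩
    have := hs.map e
    simpa using this
  · intro x
    rw [List.countP_map]
    refine le_trans (le_of_eq ?_) (hFc (e.symm x))
    apply List.countP_congr
    intro L _
    simp only [Function.comp, decide_eq_true_eq]
    constructor
    · intro h
      rw [List.mem_map] at h
      obtain ⟨y, hy, rfl⟩ := h
      simpa using hy
    · intro h
      rw [List.mem_map]
      exact ⟨_, h, by simp⟩

theorem LocalDimLE.mono {a b : ℕ} (h : LocalDimLE α a) (hab : a ≤ b) : LocalDimLE α b := by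
  obtain ⟨F, hF, hFc⟩ := h
  exact ⟨F, hF, fun x => (hFc x).trans hab⟩

end general

/-- the subset of `Fin 4` with the given characteristic bits -/
def mask (i : Fin 16) : Finset (Fin 4) := Finset.univ.filter (fun j => i.val.testBit j.val)

/-- four partial linear extensions of the lattice of subsets of `{0,1,2,3}` -/
def base : List (List (Fin 16)) :=
  [[0, 8, 12, 9, 13, 2, 10, 11, 6, 14, 15],
   [0, 4, 1, 5, 2, 3, 6, 7, 8, 10, 14, 9, 11, 13, 15],
   [2, 8, 10, 1, 9, 3, 11, 4, 5, 7, 12],
   [0, 6, 12, 14, 1, 5, 13, 3, 7, 15]]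

/-- inclusion of bit patterns -/
def sub (x y : Fin 16) : Bool := Nat.land x.val y.val == x.val

lemma mask_le : ∀ x y : Fin 16, mask x ⊆ mask y ↔ sub x y = true := by decide

lemma mask_surj : ∀ A : Finset (Fin 4), ∃ i, mask i = A := by decide

lemma base_ple : ∀ L ∈ base, L.Pairwise (fun x y => sub y x = false) := by decide

lemma base_pairs : ∀ x y : Fin 16, sub y x = false → ∃ L ∈ base, [x, y] <+ L := by decide

lemma base_count : ∀ x : Fin 16, base.countP (fun L => decide (x ∈ L)) ≤ 3 := by decide

theorem four : LocalDimLE (Finset (Fin 4)) 3 := by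
  have inj : Function.Injective mask := by
    intro x y h
    have h1 := (mask_le x y).1 h.le
    have h2 := (mask_le y x).1 h.ge
    revert x y
    decide
  refine ⟨base.map (List.map mask), isLocalRealizer_of ?_ ?_, ?_⟩
  · intro L hL
    rw [List.mem_map] at hL
    obtain ⟨M, hM, rfl⟩ := hL
    rw [IsPLE, List.pairwise_map]
    refine (base_ple M hM).imp ?_
    intro x y h h'
    rw [(mask_le y x).1 h'] at h
    cases h
  · intro A B hAB
    obtain ⟨x, rfl⟩ := mask_surj A
    obtain ⟨y, rfl⟩ := mask_surj B
    have h : sub y x = false := by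
      rw [← Bool.not_eq_true]
      exact fun h => hAB ((mask_le y x).2 h)
    obtain ⟨L, hL, hs⟩ := base_pairs x y h
    exact ⟨L.map mask, List.mem_map_of_mem hL, hs.map mask⟩
  · intro A
    obtain ⟨x, rfl⟩ := mask_surj A
    rw [List.countP_map]
    refine le_trans (le_of_eq ?_) (base_count x)
    apply List.countP_congr
    intro L _
    simp only [Function.comp, decide_eq_true_eq]
    exact List.mem_map_of_injective inj

/-- The subsets of a sum are the pairs of subsets of the summands. -/
def splitIso (n m : ℕ) : Finset (Fin n) × Finset (Fin m) ≃o Finset (Fin (n + m)) :=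
  Finset.sumEquiv.symm.trans
    ⟨finSumFinEquiv.finsetCongr, by
      intro a b
      simp only [Equiv.finsetCongr_apply, Finset.le_eq_subset, Finset.map_subset_map]⟩

theorem add {n m a b : ℕ} (h1 : LocalDimLE (Finset (Fin n)) a)
    (h2 : LocalDimLE (Finset (Fin m)) b) : LocalDimLE (Finset (Fin (n + m))) (a + b) :=
  (localDimLE_prod h1 h2).congr (splitIso n m)

theorem zero : LocalDimLE (Finset (Fin 0)) 0 := by
  refine ⟨[], isLocalRealizer_of (by simp) ?_, by simp⟩
  intro x y h
  exact absurd (le_of_eq (Subsingleton.elim y x)) h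

theorem one : LocalDimLE (Finset (Fin 1)) 1 := by
  refine ⟨[[∅, {0}]], isLocalRealizer_of ?_ ?_, ?_⟩
  · intro L hL
    rw [List.mem_singleton] at hL
    subst hL
    simp [IsPLE]
  · decide
  · intro x
    exact List.countP_le_length

theorem trivial_bound (n : ℕ) : LocalDimLE (Finset (Fin n)) n := by
  induction n with
  | zero => exact zero
  | succ n ih => exact add ih one

theorem blocks (r m : ℕ) : LocalDimLE (Finset (Fin (r + 4 * m))) (r + 3 * m) := by
  induction m with
  | zero => simpa using trivial_bound r
  | succ m ih =>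
    have h := add ih four
    exact h

/-- **Q1 fails.** For every `n` the lattice of all subsets of `Fin n` has local dimension at most
`n - ⌊n / 4⌋`; this is less than `n` for every `n ≥ 4`. -/
theorem result : ∀ n : ℕ, LocalDimLE (Finset (Fin n)) (n - n / 4) := by
  intro n
  have h := blocks (n % 4) (n / 4)
  have e1 : n % 4 + 4 * (n / 4) = n := Nat.mod_add_div n 4
  have e2 : n % 4 + 3 * (n / 4) = n - n / 4 := by omega
  rw [e1, e2] at h
  exact h

end Pool.Agent.Results.MP_666a49_co.QuarterSaving
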